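import Mathlib
import Pool.Agent.RelRoots.OwnDefs
import Pool.Agent.RelRoots.BinaryFinal

open Pool.Agent.RelRootsBin

namespace Pool.Agent.Results.MP_4e0707_co.BinaryRootsUnbounded

/-- **Reliability roots of matroids are unbounded, already for binary matroids.** For every real
`R` there are a binary matroid `M` on a finite ground set and a complex number `z` of modulus
greater than `R` that is a root of the reliability polynomial
`∑_{i=0}^r F_i p^i (1-p)^(m-i)` of `M`; moreover `1 - z` is then a root of the polynomial of the
spanning sets of the dual matroid of `M`, and it has modulus greater than `R` too. -/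
theorem result (R : ℝ) : ∃ (n : ℕ) (M : Matroid (Fin n)), M.E = Set.univ ∧ IsBinary M ∧
    ∃ z : ℂ, (relPoly M).IsRoot z ∧ (spanPoly M✶).IsRoot (1 - z) ∧ R < ‖z‖ ∧ R < ‖1 - z‖ :=
  main R

end Pool.Agent.Results.MP_4e0707_co.BinaryRootsUnbounded
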